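import Mathlib

/-!
# Forms in general position with prescribed orders of vanishing at given points of the rational normal curve
-/

set_option autoImplicit false

namespace Pool.Agent.Helper71.SH

open Polynomial Module

section

variable {k : Type*} [Field k] [CharZero k]

/-- `(X - p) h' = (n + 1) h` and `h` has a root different from `p` -/
theorem ode {p p' : k} (hp : p ≠ p') (n : ℕ) (h : k[X]) (hr : h.IsRoot p')
    (he : (X - C p) * derivative h = C ((n : k) + 1) * h) : h = 0 := by
  by_contra h0
  have hn : ((n : k) + 1) ≠ 0 := by exact_mod_cast Nat.succ_ne_zero n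
  have hd : derivative h ≠ 0 := by
    intro hd
    rw [hd, mul_zero] at he
    rcases mul_eq_zero.1 he.symm with h1 | h1
    · exact hn (C_eq_zero.1 h1)
    · exact h0 h1
  have hX : (X - C p : k[X]) ≠ 0 := X_sub_C_ne_zero p
  have hC : (C ((n : k) + 1) : k[X]) ≠ 0 := fun h1 => hn (C_eq_zero.1 h1)
  have h1 := congrArg (rootMultiplicity p') he
  rw [rootMultiplicity_mul (mul_ne_zero hX hd), rootMultiplicity_mul (mul_ne_zero hC h0),
    derivative_rootMultiplicity_of_root hr, rootMultiplicity_C, zero_add] at h1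
  have h2 : rootMultiplicity p' (X - C p : k[X]) = 0 := by
    apply rootMultiplicity_eq_zero
    rw [IsRoot, eval_sub, eval_X, eval_C]
    exact sub_ne_zero.2 (Ne.symm hp)
  have h3 : 0 < rootMultiplicity p' h := (rootMultiplicity_pos h0).2 hr
  omega

omit [CharZero k] in
private theorem deg_lt_zero (p : k) (n : ℕ) (h : k[X]) (hd : h.natDegree ≤ n) (hdvd : (X - C p) ^ (n + 1) ∣ h) : h = 0 := by
  by_contra h0
  have h1 := natDegree_le_of_dvd hdvd h0
  rw [natDegree_pow, natDegree_X_sub_C] at h1
  omega

/-- Flags at different points are in general position. -/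
theorem direct {J : Type*} [Fintype J] [DecidableEq J] (P : J → k) (hP : Function.Injective P) :
    ∀ (n : ℕ) (ν : J → ℕ) (h : J → k[X]), ∑ j, ν j ≤ n + 1 → (∀ j, (h j).natDegree ≤ n) →
      (∀ j, (X - C (P j)) ^ (n + 1 - ν j) ∣ h j) → ∑ j, h j = 0 → ∀ j, h j = 0 := by
  intro n
  induction n with
  | zero =>
    intro ν h hν hd hdvd hs j
    by_cases hj : ν j = 0
    · apply deg_lt_zero (P j) 0 _ (hd j)
      have := hdvd j
      rwa [hj] at this
    · have h1 : ∀ i, i ≠ j → h i = 0 := by
        intro i hi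
        have h2 : ν i = 0 := by
          have h3 : ν i + ν j ≤ ∑ j, ν j := by
            rw [← Finset.sum_pair hi]
            exact Finset.sum_le_sum_of_subset (Finset.subset_univ _)
          omega
        apply deg_lt_zero (P i) 0 _ (hd i)
        have := hdvd i
        rwa [h2] at this
      rw [← hs, Finset.sum_eq_single j (fun i _ hi => h1 i hi) fun hj => absurd (Finset.mem_univ j) hj]
  | succ n ih =>
    intro ν h hν hd hdvd hs
    by_cases hall : ∀ j, ν j = 0
    · intro j
      apply deg_lt_zero (P j) (n + 1) _ (hd j)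
      have := hdvd j
      rwa [hall j] at this
    push Not at hall
    obtain ⟨i, hi⟩ := hall
    have hle : ∀ j, j ≠ i → ν j + ν i ≤ n + 2 := by
      intro j hj
      have h3 : ν j + ν i ≤ ∑ j, ν j := by
        rw [← Finset.sum_pair hj]
        exact Finset.sum_le_sum_of_subset (Finset.subset_univ _)
      omega
    have key := ih (fun j => if j = i then ν j - 1 else ν j)
      (fun j => (X - C (P i)) * derivative (h j) - C ((n : k) + 1) * h j) ?_ ?_ ?_ ?_
    · have h1 : ∀ j, j ≠ i → h j = 0 := by
        intro j hj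
        have h2 := key j
        refine ode (p := P i) (p' := P j) (fun hh => hj (hP hh.symm)) n (h j) ?_ (sub_eq_zero.1 h2)
        have h3 : (X - C (P j)) ∣ h j := by
          refine (dvd_pow_self _ ?_).trans (hdvd j)
          have := hle j hj
          omega
        exact dvd_iff_isRoot.1 h3
      intro j
      by_cases hj : j = i
      · subst hj
        rw [← hs, Finset.sum_eq_single j (fun i _ hi => h1 i hi) fun hj => absurd (Finset.mem_univ j) hj]
      · exact h1 j hj
    · have h1 : ∑ j, (if j = i then ν j - 1 else ν j) + 1 = ∑ j, ν j := by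
        rw [← Finset.add_sum_erase _ _ (Finset.mem_univ i), ← Finset.add_sum_erase _ ν (Finset.mem_univ i), if_pos rfl]
        have h2 : ∑ j ∈ Finset.univ.erase i, (if j = i then ν j - 1 else ν j) = ∑ j ∈ Finset.univ.erase i, ν j :=
          Finset.sum_congr rfl fun j hj => if_neg (Finset.ne_of_mem_erase hj)
        rw [h2]
        omega
      omega
    · intro j
      show natDegree ((X - C (P i)) * derivative (h j) - C ((n : k) + 1) * h j) ≤ n
      rw [natDegree_le_iff_coeff_eq_zero]
      intro N hN
      obtain ⟨M, rfl⟩ : ∃ M, N = M + 1 := ⟨N - 1, by omega⟩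
      rw [coeff_sub, coeff_C_mul, sub_mul, coeff_sub, coeff_X_mul, coeff_C_mul, coeff_derivative, coeff_derivative]
      have h1 : (h j).coeff (M + 1 + 1) = 0 := coeff_eq_zero_of_natDegree_lt (by have := hd j; omega)
      rw [h1, zero_mul, mul_zero, sub_zero]
      rcases Nat.lt_or_ge M (n + 1) with h2 | h2
      · have h3 : M = n := by omega
        rw [h3]
        ring
      · have h4 : (h j).coeff (M + 1) = 0 := coeff_eq_zero_of_natDegree_lt (by have := hd j; omega)
        rw [h4, zero_mul, mul_zero, sub_zero]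
    · intro j
      show (X - C (P j)) ^ (n + 1 - (if j = i then ν j - 1 else ν j)) ∣
        (X - C (P i)) * derivative (h j) - C ((n : k) + 1) * h j
      have h1 := pow_sub_one_dvd_derivative_of_pow_dvd (hdvd j)
      by_cases hj : j = i
      · subst hj
        rw [if_pos rfl]
        refine dvd_sub ?_ (Dvd.dvd.mul_left ?_ _)
        · rcases Nat.lt_or_ge (ν j) (n + 2) with h2 | h2
          · have h3 : n + 1 - (ν j - 1) = (n + 1 + 1 - ν j - 1) + 1 := by omega
            rw [h3, pow_succ, mul_comm]
            exact mul_dvd_mul_left _ h1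
          · have h3 : n + 1 - (ν j - 1) = 0 := by omega
            rw [h3, pow_zero]
            exact one_dvd _
        · have h3 : n + 1 - (ν j - 1) = n + 1 + 1 - ν j := by omega
          rw [h3]
          exact hdvd j
      · rw [if_neg hj]
        refine dvd_sub (Dvd.dvd.mul_left ?_ _) (Dvd.dvd.mul_left ?_ _)
        · have h3 : n + 1 - ν j = n + 1 + 1 - ν j - 1 := by omega
          rw [h3]
          exact h1
        · exact (pow_dvd_pow _ (by omega)).trans (hdvd j)
    · have h1 : ∑ j, ((X - C (P i)) * derivative (h j) - C ((n : k) + 1) * h j) =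
          (X - C (P i)) * derivative (∑ j, h j) - C ((n : k) + 1) * ∑ j, h j := by
        rw [Finset.sum_sub_distrib, derivative_sum, Finset.mul_sum, Finset.mul_sum]
      rw [h1, hs]
      simp

omit [CharZero k] in
theorem pow_indep {ι : Type*} (s : Finset ι) (p : k) (e : ι → ℕ) (he : ∀ i ∈ s, ∀ j ∈ s, e i = e j → i = j) (a : ι → k)
    (h : ∑ i ∈ s, C (a i) * (X - C p) ^ e i = 0) : ∀ i ∈ s, a i = 0 := by
  classical
  intro i hi
  have h1 := congrArg (fun q : k[X] => q.comp (X + C p)) h
  simp only [Polynomial.sum_comp, mul_comp, C_comp, pow_comp, sub_comp, X_comp, add_sub_cancel_right, zero_comp] at h1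
  have h2 := congrArg (fun q : k[X] => q.coeff (e i)) h1
  simp only [finsetSum_coeff, coeff_C_mul, coeff_X_pow, coeff_zero] at h2
  rw [Finset.sum_eq_single i] at h2
  · simpa using h2
  · intro j hj hji
    rw [if_neg fun hh => hji (he j hj i hi hh.symm), mul_zero]
  · intro hi'
    exact absurd hi hi'

/-- number of the elements of `I` below `a` in its column -/
def rnk {J : Type*} [DecidableEq J] {n : ℕ} (I : Finset (J × Fin n)) (a : J × Fin n) : ℕ :=
  (Finset.univ.filter fun s : Fin n => s < a.2 ∧ (a.1, s) ∈ I).card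

theorem rnk_le {J : Type*} [DecidableEq J] {n : ℕ} (I : Finset (J × Fin n)) (a : J × Fin n) : rnk I a ≤ a.2 := by
  unfold rnk
  calc _ ≤ (Finset.univ.filter fun s : Fin n => s < a.2).card :=
        Finset.card_le_card (Finset.monotone_filter_right _ fun s _ h => h.1)
    _ = a.2 := by
        have h1 : (Finset.univ.filter fun s : Fin n => s < a.2) = Finset.Iio a.2 := by
          ext s
          simp
        rw [h1, Fin.card_Iio]

theorem rnk_lt {J : Type*} [DecidableEq J] {n : ℕ} (I : Finset (J × Fin n)) {a b : J × Fin n} (ha : a ∈ I)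
    (h1 : a.1 = b.1) (h2 : a.2 < b.2) : rnk I a < rnk I b := by
  unfold rnk
  apply Finset.card_lt_card
  rw [Finset.ssubset_iff_of_subset]
  · refine ⟨a.2, ?_, ?_⟩
    · rw [Finset.mem_filter]
      refine ⟨Finset.mem_univ _, h2, ?_⟩
      rw [← h1]
      exact ha
    · rw [Finset.mem_filter]
      exact fun h => lt_irrefl _ h.2.1
  · intro s hs
    rw [Finset.mem_filter] at hs ⊢
    refine ⟨Finset.mem_univ _, hs.2.1.trans h2, ?_⟩
    rw [← h1]
    exact hs.2.2

theorem rnk_succ_le {J : Type*} [DecidableEq J] {n : ℕ} (I : Finset (J × Fin n)) {a : J × Fin n} (ha : a ∈ I) :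
    rnk I a + 1 ≤ (I.filter fun b => b.1 = a.1).card := by
  classical
  unfold rnk
  have h1 : ((Finset.univ.filter fun s : Fin n => s < a.2 ∧ (a.1, s) ∈ I).image fun s => (a.1, s)) ⊆
      (I.filter fun b => b.1 = a.1).erase a := by
    intro b hb
    obtain ⟨s, hs, rfl⟩ := Finset.mem_image.1 hb
    rw [Finset.mem_filter] at hs
    rw [Finset.mem_erase, Finset.mem_filter]
    refine ⟨fun h => ?_, hs.2.2, rfl⟩
    have h2 : s = a.2 := congrArg Prod.snd h
    rw [h2] at hs
    exact lt_irrefl _ hs.2.1
  have h2 := Finset.card_le_card h1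
  rw [Finset.card_image_of_injective _ fun s t hst => congrArg Prod.snd hst,
    Finset.card_erase_of_mem (by rw [Finset.mem_filter]; exact ⟨ha, rfl⟩)] at h2
  have h3 : 0 < (I.filter fun b => b.1 = a.1).card := Finset.card_pos.2 ⟨a, by rw [Finset.mem_filter]; exact ⟨ha, rfl⟩⟩
  omega

/-- A choice of powers for an `n + 1`-element set. -/
theorem indep_powers {J : Type*} [Fintype J] [DecidableEq J] (P : J → k) (hP : Function.Injective P) (n : ℕ)
    (I : Finset (J × Fin n)) (hI : I.card ≤ n + 1) (w : J × Fin n → k)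
    (h : ∑ a ∈ I, C (w a) * (X - C (P a.1)) ^ (n - rnk I a) = 0) : ∀ a ∈ I, w a = 0 := by
  classical
  have h1 := direct P hP n (fun j => (I.filter fun b => b.1 = j).card)
    (fun j => ∑ a ∈ I.filter (fun b => b.1 = j), C (w a) * (X - C (P a.1)) ^ (n - rnk I a)) ?_ ?_ ?_ ?_
  · intro a ha
    have h2 := h1 a.1
    have h3 : ∑ b ∈ I.filter (fun b => b.1 = a.1), C (w b) * (X - C (P a.1)) ^ (n - rnk I b) = 0 := by
      rw [← h2]
      refine Finset.sum_congr rfl fun b hb => ?_
      rw [(Finset.mem_filter.1 hb).2]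
    refine pow_indep _ (P a.1) (fun b => n - rnk I b) ?_ w h3 a (by rw [Finset.mem_filter]; exact ⟨ha, rfl⟩)
    intro b hb c hc hbc
    rw [Finset.mem_filter] at hb hc
    have e1 : b.1 = c.1 := hb.2.trans hc.2.symm
    have r1 := rnk_le I b
    have r2 := rnk_le I c
    have r3 := b.2.2
    have r4 := c.2.2
    rcases lt_trichotomy b.2 c.2 with h4 | h4 | h4
    · have := rnk_lt I hb.1 e1 h4
      have h5 : n - rnk I b = n - rnk I c := hbc
      omega
    · exact Prod.ext e1 h4
    · have := rnk_lt I hc.1 e1.symm h4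
      have h5 : n - rnk I b = n - rnk I c := hbc
      omega
  · have h2 : ∑ j, (I.filter fun b => b.1 = j).card = I.card :=
      (Finset.card_eq_sum_card_fiberwise fun a _ => Finset.mem_univ (Prod.fst a)).symm
    rw [h2]
    exact hI
  · intro j
    refine natDegree_sum_le_of_forall_le _ _ fun a _ => ?_
    refine (natDegree_C_mul_le _ _).trans ?_
    rw [natDegree_pow, natDegree_X_sub_C]
    omega
  · intro j
    refine Finset.dvd_sum fun a ha => Dvd.dvd.mul_left ?_ _
    rw [Finset.mem_filter] at ha
    rw [ha.2]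
    refine pow_dvd_pow _ ?_
    have h2 := rnk_succ_le I ha.1
    rw [ha.2] at h2
    have h3 := rnk_le I a
    have h4 := a.2.2
    omega
  · rw [← h]
    exact Finset.sum_fiberwise_of_maps_to (fun a _ => Finset.mem_univ (Prod.fst a)) _

/-- the form with parameters `y` -/
noncomputable def frm {J : Type*} (P : J → k) {n : ℕ} (y : (J × Fin n) × Fin n → k) (a : J × Fin n) : k[X] :=
  ∑ t : Fin n with t ≤ a.2, C (y (a, t)) * (X - C (P a.1)) ^ (n - (t : ℕ))

omit [CharZero k] in
theorem frm_deg {J : Type*} (P : J → k) {n : ℕ} (y : (J × Fin n) × Fin n → k) (a : J × Fin n) :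
    (frm P y a).natDegree ≤ n := by
  refine natDegree_sum_le_of_forall_le _ _ fun t _ => ?_
  refine (natDegree_C_mul_le _ _).trans ?_
  rw [natDegree_pow, natDegree_X_sub_C]
  omega

omit [CharZero k] in
theorem frm_dvd {J : Type*} (P : J → k) {n : ℕ} (y : (J × Fin n) × Fin n → k) (a : J × Fin n) :
    (X - C (P a.1)) ^ (n - (a.2 : ℕ)) ∣ frm P y a := by
  refine Finset.dvd_sum fun t ht => Dvd.dvd.mul_left (pow_dvd_pow _ ?_) _
  have h1 : (t : ℕ) ≤ a.2 := (Finset.mem_filter.1 ht).2
  omega

/-- the determinant as a polynomial in the parameters -/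
private noncomputable def dt {J : Type*} (P : J → k) {n : ℕ} (e : Fin (n + 1) → J × Fin n) :
    MvPolynomial ((J × Fin n) × Fin n) k :=
  Matrix.det (Matrix.of fun u i : Fin (n + 1) =>
    ∑ t : Fin n with t ≤ (e u).2, MvPolynomial.X (e u, t) * MvPolynomial.C (((X - C (P (e u).1)) ^ (n - (t : ℕ))).coeff i))

omit [CharZero k] in
private theorem eval_dt {J : Type*} (P : J → k) {n : ℕ} (e : Fin (n + 1) → J × Fin n) (y : (J × Fin n) × Fin n → k) :
    MvPolynomial.eval y (dt P e) = Matrix.det (Matrix.of fun u i : Fin (n + 1) => (frm P y (e u)).coeff i) := by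
  unfold dt
  rw [RingHom.map_det]
  congr 1
  ext u i
  show MvPolynomial.eval y (∑ t : Fin n with t ≤ (e u).2, MvPolynomial.X (e u, t) *
    MvPolynomial.C (((X - C (P (e u).1)) ^ (n - (t : ℕ))).coeff i)) = (frm P y (e u)).coeff i
  unfold frm
  rw [map_sum, finsetSum_coeff]
  refine Finset.sum_congr rfl fun t _ => ?_
  rw [map_mul, MvPolynomial.eval_X, MvPolynomial.eval_C, coeff_C_mul]

private theorem dt_ne_zero {J : Type*} [Fintype J] [DecidableEq J] (P : J → k) (hP : Function.Injective P) {n : ℕ}
    (e : Fin (n + 1) → J × Fin n) (he : Function.Injective e) : dt P e ≠ 0 := by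
  classical
  intro h0
  set I : Finset (J × Fin n) := Finset.univ.image e with hI
  have hIc : I.card ≤ n + 1 := by
    rw [hI, Finset.card_image_of_injective _ he, Finset.card_univ, Fintype.card_fin]
  let y : (J × Fin n) × Fin n → k := fun p => if (p.2 : ℕ) = rnk I p.1 then 1 else 0
  have hy : ∀ a, frm P y a = (X - C (P a.1)) ^ (n - rnk I a) := by
    intro a
    have r1 := rnk_le I a
    have r2 := a.2.2
    unfold frm
    rw [Finset.sum_eq_single (⟨rnk I a, by omega⟩ : Fin n)]
    · simp [y]
    · intro t _ ht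
      have h1 : (t : ℕ) ≠ rnk I a := fun h => ht (Fin.ext h)
      simp [y, h1]
    · intro h
      exfalso
      apply h
      rw [Finset.mem_filter]
      exact ⟨Finset.mem_univ _, r1⟩
  have h1 := eval_dt P e y
  rw [h0, map_zero] at h1
  obtain ⟨w, hw0, hw⟩ := Matrix.exists_vecMul_eq_zero_iff.2 h1.symm
  apply hw0
  have h2 : ∑ u, C (w u) * (X - C (P (e u).1)) ^ (n - rnk I (e u)) = 0 := by
    ext i
    rw [finsetSum_coeff, coeff_zero]
    rcases Nat.lt_or_ge i (n + 1) with hi | hi
    · have h3 := congrFun hw ⟨i, hi⟩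
      rw [Matrix.vecMul, dotProduct] at h3
      rw [Pi.zero_apply] at h3
      rw [← h3]
      refine Finset.sum_congr rfl fun u _ => ?_
      rw [coeff_C_mul, ← hy]
      rfl
    · refine Finset.sum_eq_zero fun u _ => ?_
      rw [coeff_C_mul, coeff_eq_zero_of_natDegree_lt, mul_zero]
      rw [natDegree_pow, natDegree_X_sub_C]
      omega
  have h3 := indep_powers P hP n I hIc (Function.extend e w 0) (by
    rw [hI, Finset.sum_image fun a _ b _ hab => he hab, ← h2]
    refine Finset.sum_congr rfl fun u _ => ?_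
    rw [he.extend_apply])
  funext u
  have h4 := h3 (e u) (Finset.mem_image_of_mem e (Finset.mem_univ u))
  rwa [he.extend_apply] at h4

/-- There are forms `(X - P_j) ^ (n - s) R_{j,s}`, `s < n`, of degree at most `n` in general position. -/
theorem exists_gp {J : Type*} [Fintype J] [DecidableEq J] (P : J → k) (hP : Function.Injective P) (n : ℕ)
    (hc : n + 1 ≤ Fintype.card J * n) : ∃ F : J × Fin n → k[X], (∀ a, (F a).natDegree ≤ n) ∧
      (∀ a, (X - C (P a.1)) ^ (n - (a.2 : ℕ)) ∣ F a) ∧
      ∀ I : Finset (J × Fin n), I.card ≤ n + 1 → LinearIndependent k fun a : I => fun i : Fin (n + 1) => (F a.1).coeff i := by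
  classical
  have h1 : (∏ e : Fin (n + 1) → J × Fin n with Function.Injective e, dt P e) ≠ 0 :=
    Finset.prod_ne_zero_iff.2 fun e he => dt_ne_zero P hP e (Finset.mem_filter.1 he).2
  obtain ⟨y, hy⟩ : ∃ y, MvPolynomial.eval y (∏ e : Fin (n + 1) → J × Fin n with Function.Injective e, dt P e) ≠ 0 := by
    by_contra hcon
    push Not at hcon
    apply h1
    apply MvPolynomial.funext
    intro y
    rw [hcon y, map_zero]
  rw [map_prod, Finset.prod_ne_zero_iff] at hy
  refine ⟨frm P y, frm_deg P y, frm_dvd P y, fun I hI => ?_⟩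
  obtain ⟨I', hI', hI'c⟩ := Finset.exists_superset_card_eq hI (by
    rw [Fintype.card_prod, Fintype.card_fin]
    exact hc)
  let e' : Fin (n + 1) ≃ I' := (Fintype.equivFinOfCardEq (by rw [Fintype.card_coe, hI'c])).symm
  have h2 := hy (fun u => (e' u).1) (by
    rw [Finset.mem_filter]
    exact ⟨Finset.mem_univ _, fun u v h => e'.injective (Subtype.ext h)⟩)
  rw [eval_dt] at h2
  have h3 := Matrix.linearIndependent_rows_of_det_ne_zero h2
  have h4 := h3.comp (fun a : I => e'.symm ⟨a.1, hI' a.2⟩) fun a b h => by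
    have h5 := e'.symm.injective h
    exact Subtype.ext (congrArg (fun c : I' => (c : J × Fin n)) h5)
  have h5 : (fun a : I => fun i : Fin (n + 1) => (frm P y a.1).coeff i) =
      (Matrix.of fun u i : Fin (n + 1) => (frm P y (e' u).1).coeff i).row ∘ fun a : I => e'.symm ⟨a.1, hI' a.2⟩ := by
    funext a i
    show (frm P y a.1).coeff i = (frm P y (e' (e'.symm ⟨a.1, hI' a.2⟩)).1).coeff i
    rw [Equiv.apply_symm_apply]
  rw [h5]
  exact h4

end

end Pool.Agent.Helper71.SH
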